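import Pool.Agent.THS.StmtsL

/-!
# THS, row NRA: the normalised sequences are congruent to a constant
-/

set_option autoImplicit false

open scoped BigOperators

namespace Pool.Agent.THS.H70

open Pool.Agent.THS

section gen

variable {K : Type} [Field K] {v : AbsoluteValue K ℝ} {ρ : ℝ}

theorem na_sub (hna : IsNonarchimedean v) (x y : K) : v (x - y) ≤ max (v x) (v y) := by
  rw [sub_eq_add_neg]
  refine (hna x (-y)).trans ?_
  rw [v.map_neg]

theorem na_sum (hna : IsNonarchimedean v) {ι : Type} (s : Finset ι) (f : ι → K) {δ : ℝ}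
    (hδ : 0 ≤ δ) (h : ∀ i ∈ s, v (f i) ≤ δ) : v (∑ i ∈ s, f i) ≤ δ := by
  classical
  induction s using Finset.induction_on with
  | empty => simpa using hδ
  | insert a s ha ih =>
    rw [Finset.sum_insert ha]
    refine (hna _ _).trans (max_le (h a (Finset.mem_insert_self a s)) ?_)
    exact ih fun i hi => h i (Finset.mem_insert_of_mem hi)

/-- One-units have absolute value one. -/
theorem un_one (hna : IsNonarchimedean v) (h1 : ρ < 1) {y : K} (hy : v (y - 1) ≤ ρ) :
    v y = 1 := by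
  have a1 : v y ≤ 1 := by
    have h2 := hna (y - 1) 1
    rw [sub_add_cancel, v.map_one] at h2
    exact h2.trans (max_le (hy.trans h1.le) le_rfl)
  have a2 : 1 ≤ v y := by
    have h2 := na_sub hna y (y - 1)
    rw [sub_sub_cancel, v.map_one] at h2
    rcases le_max_iff.1 h2 with h3 | h3
    · exact h3
    · exact absurd (h3.trans hy) (not_le.2 h1)
  exact le_antisymm a1 a2

theorem un_mul (hna : IsNonarchimedean v) (h1 : ρ < 1) {x y : K} (hx : v (x - 1) ≤ ρ)
    (hy : v (y - 1) ≤ ρ) : v (x * y - 1) ≤ ρ := by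
  have h2 : x * y - 1 = (x - 1) * y + (y - 1) := by ring
  rw [h2]
  refine (hna _ _).trans (max_le ?_ hy)
  rw [v.map_mul, un_one hna h1 hy, mul_one]
  exact hx

theorem un_div (hna : IsNonarchimedean v) (h1 : ρ < 1) {x y : K} (hx : v (x - 1) ≤ ρ)
    (hy : v (y - 1) ≤ ρ) : v (x / y - 1) ≤ ρ := by
  have hy1 := un_one hna h1 hy
  have hy0 : y ≠ 0 := by
    rintro rfl
    rw [v.map_zero] at hy1
    exact zero_ne_one hy1
  have h2 : x / y - 1 = ((x - 1) - (y - 1)) / y := by
    field_simp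
    ring
  rw [h2, map_div₀, hy1, div_one]
  exact (na_sub hna _ _).trans (max_le hx hy)

/-- A quotient of two units which are congruent to the same unit is a one-unit. -/
theorem un_of {x y : K} (hy : v y = 1) (hxy : v (x - y) ≤ ρ) :
    v (x / y - 1) ≤ ρ := by
  have hy0 : y ≠ 0 := by
    rintro rfl
    rw [v.map_zero] at hy
    exact zero_ne_one hy
  have h2 : x / y - 1 = (x - y) / y := by
    field_simp
  rw [h2, map_div₀, hy, div_one]
  exact hxy

theorem nv_le {ι : Type} [Finite ι] (x : ι → K) (i : ι) : v (x i) ≤ nv v x :=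
  le_ciSup (f := fun i => v (x i)) (Set.finite_range _).bddAbove i

theorem nv_ex {ι : Type} [Finite ι] [Nonempty ι] (v : AbsoluteValue K ℝ) (x : ι → K) :
    ∃ i, v (x i) = nv v x :=
  exists_eq_ciSup_of_finite

theorem nv_pos {ι : Type} [Finite ι] {x : ι → K} (hx : x ≠ 0) : 0 < nv v x := by
  obtain ⟨i, hi⟩ := Function.ne_iff.1 hx
  exact lt_of_lt_of_le (v.pos hi) (nv_le x i)

end gen

theorem alg_step {K : Type} [Field K] {A B C x y z κ t0 t1 p q s w : K} (hB : B ≠ 0)
    (hy : y ≠ 0) (hz : z ≠ 0) (hκ : κ ≠ 0) (h0 : t0 ≠ 0) (hp : p ≠ 0) (hq : q ≠ 0)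
    (hxy : x * y = z ^ 2 * κ ^ 2) (ht : t1 = κ * t0)
    (hE : A * B * p * (t0 * t0 * q) = C * C * s * (t1 * t1 * w)) :
    A / (t0 * x) = C / (t0 * z) * (C / (t0 * z)) * (s * w / (p * q)) / (B / (t0 * y)) := by
  subst ht
  have h1 : A * B * (p * q) = C ^ 2 * (s * w) * κ ^ 2 := by
    refine mul_left_cancel₀ (pow_ne_zero 2 h0) ?_
    linear_combination hE
  have h2 : A = C ^ 2 * (s * w) * κ ^ 2 / (B * (p * q)) := by
    rw [eq_div_iff (mul_ne_zero hB (mul_ne_zero hp hq))]
    linear_combination h1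
  have h3 : x = z ^ 2 * κ ^ 2 / y := by
    rw [eq_div_iff hy]
    exact hxy
  rw [h2, h3]
  field_simp

theorem nra (hRQI : RqiStatement) : NraStatement := by
  intro K _ v ρ g N α β T x hna h2 hρ0 hρ1 hgap hT hPC
  obtain ⟨o, ho⟩ := nv_ex v (T 0)
  have hT0 : ∀ k, T k ≠ 0 := hT.T0
  have hn : ∀ k, 0 < nv v (T k) := fun k => nv_pos (hT0 k)
  -- the coordinate `o` is maximal for all `k`
  have hmax : ∀ k, v (T k o) = nv v (T k) := by
    intro k
    refine le_antisymm (nv_le _ _) ?_
    obtain ⟨i, hi⟩ := nv_ex v (T k)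
    have h3 := hPC k i o
    have h4 : v (T k i * T 0 o) = nv v (T k) * nv v (T 0) := by rw [v.map_mul, hi, ho]
    have h5 := na_sub hna (T k i * T 0 o) (T k i * T 0 o - T k o * T 0 i)
    rw [sub_sub_cancel] at h5
    have h6 := na_sub hna (T k o * T 0 i) (T k o * T 0 i - T k i * T 0 o)
    rw [sub_sub_cancel, h4] at h6
    have h7 : v (T k o * T 0 i - T k i * T 0 o) < nv v (T k) * nv v (T 0) := by
      rw [v.map_sub]
      exact h3
    rcases le_max_iff.1 h6 with h8 | h8
    · rw [v.map_mul] at h8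
      have h9 : v (T k o) * v (T 0 i) ≤ v (T k o) * nv v (T 0) :=
        mul_le_mul_of_nonneg_left (nv_le _ _) (v.nonneg _)
      exact le_of_mul_le_mul_right (h8.trans h9) (hn 0)
    · exact absurd h7 (not_lt.2 h8)
  have ht : ∀ k, T k o ≠ 0 := by
    intro k hk
    have h3 := hmax k
    rw [hk, v.map_zero] at h3
    exact (hn k).ne h3
  set r : (Fin g → ZMod 2) → ℤ → K := fun a k => T k a / T k o with hr
  have hr1 : ∀ a k, v (r a k) ≤ 1 := by
    intro a k
    rw [hr]
    simp only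
    rw [map_div₀, hmax k, div_le_one (hn k)]
    exact nv_le _ _
  have hr0 : ∀ a k, v (r a k - r a 0) ≤ ρ := by
    intro a k
    refine hgap _ ?_
    have h3 : r a k - r a 0 = (T k a * T 0 o - T k o * T 0 a) / (T k o * T 0 o) := by
      have h4 := ht k
      have h5 := ht 0
      rw [hr]
      simp only
      field_simp
    rw [h3, map_div₀, v.map_mul, hmax k, ho, div_lt_one (mul_pos (hn k) (hn 0))]
    exact hPC k a o
  have hro : ∀ k, r o k = 1 := fun k => div_self (ht k)
  set R : (Fin g → ZMod 2) → ℤ → ℤ → K := fun b i j =>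
    ∑ c, (sgn b c : K) * (r c (i + j) * r c (i - j)) with hR
  have hRQ : ∀ b i j, RQ T 0 b i j = T (i + j) o * T (i - j) o * R b i j := by
    intro b i j
    rw [hR]
    unfold RQ
    simp only [zero_add]
    rw [Finset.mul_sum]
    refine Finset.sum_congr rfl fun c _ => ?_
    have h4 := ht (i + j)
    have h5 := ht (i - j)
    rw [hr]
    simp only
    field_simp
  have hsg : ∀ b c : Fin g → ZMod 2, v ((sgn b c : ℤ) : K) = 1 := by
    intro b c
    unfold sgn
    rw [Int.cast_pow, Int.cast_neg, Int.cast_one, map_pow, v.map_neg, v.map_one, one_pow]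
  have hRR : ∀ b i j, v (R b i j - R b 0 0) ≤ ρ := by
    intro b i j
    rw [hR]
    simp only
    rw [← Finset.sum_sub_distrib]
    refine na_sum hna _ _ hρ0.le fun c _ => ?_
    have h3 : (sgn b c : K) * (r c (i + j) * r c (i - j)) -
        (sgn b c : K) * (r c (0 + 0) * r c (0 - 0)) =
        (sgn b c : K) * ((r c (i + j) - r c 0) * r c (i - j) +
          r c 0 * (r c (i - j) - r c 0)) := by
      rw [add_zero, sub_zero]
      ring
    rw [h3, v.map_mul, hsg, one_mul]
    refine (hna _ _).trans (max_le ?_ ?_)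
    · rw [v.map_mul]
      calc v (r c (i + j) - r c 0) * v (r c (i - j)) ≤ ρ * 1 :=
            mul_le_mul (hr0 c _) (hr1 c _) (v.nonneg _) hρ0.le
        _ = ρ := mul_one ρ
    · rw [v.map_mul]
      calc v (r c 0) * v (r c (i - j) - r c 0) ≤ 1 * ρ :=
            mul_le_mul (hr1 c _) (hr0 c _) (v.nonneg _) zero_le_one
        _ = ρ := one_mul ρ
  have hRle : ∀ b i j, v (R b i j) ≤ 1 := by
    intro b i j
    rw [hR]
    refine na_sum hna _ _ zero_le_one fun c _ => ?_
    rw [v.map_mul, hsg, one_mul, v.map_mul]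
    exact mul_le_one₀ (hr1 c _) (v.nonneg _) (hr1 c _)
  obtain ⟨b, hb⟩ : ∃ b, v (R b 0 0) = 1 := by
    by_contra hcon
    have h3 : ∀ b, v (R b 0 0) ≤ ρ := fun b =>
      hgap _ (lt_of_le_of_ne (hRle b 0 0) fun h => hcon ⟨b, h⟩)
    have h4 := hRQI g K T 0 o 0 0
    have h5 : ∑ b, (sgn b (0 + o) : K) * R b 0 0 = 2 ^ g := by
      have h6 := ht 0
      refine mul_left_cancel₀ (mul_ne_zero h6 h6) ?_
      rw [Finset.mul_sum]
      calc ∑ b, T 0 o * T 0 o * ((sgn b (0 + o) : K) * R b 0 0)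
          = ∑ b, (sgn b (0 + o) : K) * RQ T 0 b 0 0 := by
            refine Finset.sum_congr rfl fun b _ => ?_
            rw [hRQ, add_zero, sub_zero]
            ring
        _ = T 0 o * T 0 o * 2 ^ g := by
            rw [h4]
            simp only [zero_add, sub_zero]
            ring
    have h7 : v (∑ b, (sgn b (0 + o) : K) * R b 0 0) ≤ ρ := by
      refine na_sum hna _ _ hρ0.le fun b _ => ?_
      rw [v.map_mul, hsg, one_mul]
      exact h3 b
    rw [h5, map_pow, h2, one_pow] at h7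
    exact absurd h7 (not_le.2 hρ1)
  have hR1 : ∀ i j, v (R b i j / R b 0 0 - 1) ≤ ρ := fun i j => un_of hb (hRR b i j)
  have hR00 : R b 0 0 ≠ 0 := by
    intro h
    rw [h, v.map_zero] at hb
    exact zero_ne_one hb
  have hRne : ∀ i j, R b i j ≠ 0 := by
    intro i j h
    have h3 := un_one hna hρ1 (hR1 i j)
    rw [h, zero_div, v.map_zero] at h3
    exact zero_ne_one h3
  set κ : K := T 1 o / T 0 o with hκd
  have hκ : κ ≠ 0 := div_ne_zero (ht 1) (ht 0)
  have ht1 : T 1 o = κ * T 0 o := (div_mul_cancel₀ _ (ht 0)).symm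
  have hkk : ∀ k : ℤ, κ ^ (k ^ 2) ≠ 0 := fun k => zpow_ne_zero _ hκ
  have w0 : wn T o κ o 0 = 1 := by
    unfold wn
    rw [show ((0 : ℤ) ^ 2) = 0 by norm_num, zpow_zero, mul_one, div_self (ht 0)]
  have w1 : wn T o κ o 1 = 1 := by
    unfold wn
    rw [show ((1 : ℤ) ^ 2) = 1 by norm_num, zpow_one, mul_comm, ← ht1, div_self (ht 1)]
  have wstep : ∀ i : ℤ, wn T o κ o (i + 1) = wn T o κ o i * wn T o κ o i *
      (R b i 0 * R b 0 1 / (R b i 1 * R b 0 0)) / wn T o κ o (i - 1) := by
    intro i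
    unfold wn
    refine alg_step (t1 := T 1 o) (ht (i - 1)) (hkk _) (hkk _) hκ (ht 0) (hRne i 1) hR00
      ?_ ht1 ?_
    · rw [← zpow_add₀ hκ, ← zpow_natCast (κ ^ (i ^ 2)) 2, ← zpow_mul, ← zpow_natCast κ 2,
        ← zpow_add₀ hκ]
      congr 1
      push_cast
      ring
    · have h3 := hT.rk1 0 b i 1 0 0
      rw [hRQ, hRQ, hRQ, hRQ, add_zero, add_zero, sub_zero, sub_zero, zero_add, zero_sub,
        hT.even 1 o] at h3
      exact h3
  have wun : ∀ k : ℕ, v (wn T o κ o k - 1) ≤ ρ ∧ v (wn T o κ o ((k : ℤ) + 1) - 1) ≤ ρ := by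
    intro k
    induction k with
    | zero =>
      constructor
      · rw [Nat.cast_zero, w0, sub_self, v.map_zero]
        exact hρ0.le
      · rw [Nat.cast_zero, zero_add, w1, sub_self, v.map_zero]
        exact hρ0.le
    | succ k ih =>
      refine ⟨?_, ?_⟩
      · rw [Nat.cast_succ]
        exact ih.2
      · rw [Nat.cast_succ, wstep ((k : ℤ) + 1), add_sub_cancel_right]
        refine un_div hna hρ1 (un_mul hna hρ1 (un_mul hna hρ1 ih.2 ih.2) ?_) ih.1
        have h3 : R b ((k : ℤ) + 1) 0 * R b 0 1 / (R b ((k : ℤ) + 1) 1 * R b 0 0) =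
            (R b ((k : ℤ) + 1) 0 / R b 0 0) * (R b 0 1 / R b 0 0) /
              (R b ((k : ℤ) + 1) 1 / R b 0 0) := by
          have h4 := hRne ((k : ℤ) + 1) 1
          field_simp
        rw [h3]
        exact un_div hna hρ1 (un_mul hna hρ1 (hR1 _ _) (hR1 _ _)) (hR1 _ _)
  have wev : ∀ k : ℤ, wn T o κ o (-k) = wn T o κ o k := by
    intro k
    unfold wn
    rw [hT.even, neg_sq]
  have wall : ∀ k : ℤ, v (wn T o κ o k - 1) ≤ ρ := by
    intro k
    rcases le_total 0 k with hk | hk
    · obtain ⟨m, rfl⟩ := Int.eq_ofNat_of_zero_le hk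
      exact (wun m).1
    · obtain ⟨m, hm⟩ := Int.eq_ofNat_of_zero_le (neg_nonneg.2 hk)
      rw [← wev k, hm]
      exact (wun m).1
  refine ⟨o, κ, hκ, ht 0, ho, ?_, wall, ?_⟩
  · intro a k
    have h3 : wn T o κ a k = r a k * wn T o κ o k := by
      have h4 := ht k
      have h5 := ht 0
      have h6 := hkk k
      unfold wn
      rw [hr]
      simp only
      field_simp
    rw [h3, v.map_mul, un_one hna hρ1 (wall k), mul_one]
    exact hr1 a k
  · have h3 : κ ^ (2 * N) / β = wn T o κ o N / wn T o κ o ((N : ℤ) + 1) := by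
      have e1 : T N o = α * T 0 o := by
        have h4 := hT.per 0 o
        rw [zero_add, zpow_zero, mul_one] at h4
        exact h4
      have e2 : T ((N : ℤ) + 1) o = α * β * (κ * T 0 o) := by
        have h4 := hT.per 1 o
        rw [zpow_one, ht1, add_comm] at h4
        exact h4
      have e3 : κ ^ (((N : ℤ) + 1) ^ 2) = κ ^ ((N : ℤ) ^ 2) * (κ ^ (2 * N) * κ) := by
        rw [← zpow_natCast κ (2 * N), ← zpow_add_one₀ hκ, ← zpow_add₀ hκ]
        congr 1
        push_cast
        ring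
      unfold wn
      rw [e1, e2, e3]
      have h4 := hT.hα
      have h5 := hT.hβ
      have h6 := ht 0
      have h7 := hkk N
      have h8 : κ ^ (2 * N) ≠ 0 := pow_ne_zero _ hκ
      field_simp
    rw [h3]
    exact un_div hna hρ1 (wall _) (wall _)

end Pool.Agent.THS.H70
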