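import Pool.Agent.THS.StmtsT

/-!
# THS, row ORT: orthogonality of the characters of `(ZMod 2)^g`
-/

set_option autoImplicit false

open scoped BigOperators

namespace Pool.Agent.THS.H70

open Pool.Agent.THS

theorem one_factor (u v : ZMod 2) :
    ∑ x : ZMod 2, (-1 : ℤ) ^ (x.val * u.val) * (-1 : ℤ) ^ (x.val * v.val) =
      if u = v then 2 else 0 := by
  revert u v
  decide

theorem ort : OrtStatement := by
  intro g c d
  have h1 : ∀ b : Fin g → ZMod 2, sgn b c * sgn b d =
      ∏ i, ((-1 : ℤ) ^ ((b i).val * (c i).val) * (-1 : ℤ) ^ ((b i).val * (d i).val)) := by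
    intro b
    unfold sgn
    rw [Finset.prod_mul_distrib, Finset.prod_pow_eq_pow_sum, Finset.prod_pow_eq_pow_sum]
  rw [Finset.sum_congr rfl fun b _ => h1 b]
  have h2 := Finset.prod_univ_sum (fun _ : Fin g => (Finset.univ : Finset (ZMod 2)))
    (fun i (x : ZMod 2) => (-1 : ℤ) ^ (x.val * (c i).val) * (-1 : ℤ) ^ (x.val * (d i).val))
  rw [Fintype.piFinset_univ] at h2
  rw [← h2, Finset.prod_congr rfl fun i _ => one_factor (c i) (d i)]
  by_cases h : c = d
  · subst h
    simp
  · rw [if_neg h]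
    obtain ⟨i, hi⟩ := Function.ne_iff.1 h
    exact Finset.prod_eq_zero (Finset.mem_univ i) (if_neg hi)

end Pool.Agent.THS.H70
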